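import Pool.Agent.H583Z.Rec.Double

set_option autoImplicit false

namespace Pool.Agent.Results.MP_3e1352_an.ANonRecurrence

open Filter Topology

/-- There are two minimal homeomorphisms `T`, `S` of one (non-empty) compact metric space such
that no point `x` admits integers `n i` with `|n i| → ∞`, `T ^ (n i) x → x`,
`T ^ (2 n i) x → x` and `S ^ ((n i) ^ 2) x → x`. -/
theorem result :
    ∃ (X : Type) (_ : MetricSpace X) (_ : CompactSpace X) (_ : Nonempty X) (T S : X ≃ₜ X),
      (∀ x : X, Dense (Set.range fun n : ℤ => (T ^ n) x)) ∧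
      (∀ x : X, Dense (Set.range fun n : ℤ => (S ^ n) x)) ∧
      ∀ x : X, ¬ ∃ n : ℕ → ℤ, Tendsto (fun i => |n i|) atTop atTop ∧
        Tendsto (fun i => (T ^ (n i)) x) atTop (𝓝 x) ∧
        Tendsto (fun i => (T ^ (2 * n i)) x) atTop (𝓝 x) ∧
        Tendsto (fun i => (S ^ ((n i) ^ 2)) x) atTop (𝓝 x) :=
  Pool.Agent.H583Z.Rec.Rg.double_main

end Pool.Agent.Results.MP_3e1352_an.ANonRecurrence
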